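import Mathlib
import Pool.Agent.Helper292.SP.Lib

set_option autoImplicit false

open Cardinal Set Pool.Agent.Helper292.SP

namespace Pool.Agent.Results.MP_2825bc_lc.ForcedFailure

/-- There are ground model well-ordered sets `K`, `M` and a forcing notion `P` such that the following holds in every
extension by `P`, with `κ = K`, `λ = ω₁`: `λ` is a cardinal (above `ω`), `κ` is a cardinal, `M` is a regular cardinal,
and `κ` has the cofinality `M < κ` (witnessed by the increasing cofinal `f : M → K`), so `κ` is singular;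
(1) `cf(κ) → (cf(κ), λ)²`; (2) `ρ ^ λ < κ` for all `ρ < κ`; and `κ → (κ, λ)²` fails. -/
theorem result : ∃ (K M P : Type) (_ : LinearOrder K) (_ : WellFoundedLT K) (_ : LinearOrder M) (_ : WellFoundedLT M)
    (f : M → K) (_ : Preorder P), Nonempty P ∧ (∃ a : K, Nonempty (M ≃o Iio a)) ∧ StrictMono f ∧ (∀ y, ∃ x, y ≤ f x) ∧
    ∀ p : P,
      p ∈ IsCard P (ℵ₁ : Cardinal.{0}).ord.ToType ∧
      p ∈ IsCard P K ∧ p ∈ IsCard P M ∧ p ∈ IsReg P M ∧
      p ∈ Arrow P M (ℵ₁ : Cardinal.{0}).ord.ToType ∧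
      p ∈ PowLT P K (ℵ₁ : Cardinal.{0}).ord.ToType ∧
      p ∈ fnot (Arrow P K (ℵ₁ : Cardinal.{0}).ord.ToType) :=
  main_B

end Pool.Agent.Results.MP_2825bc_lc.ForcedFailure
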